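import Pool.Agent.Helper33.NS4

/-!
# `ℓ²`-homology above the middle for right-angled Coxeter groups of infinite flag complexes

Let `G` be a graph on any set `V` of vertices, finite or infinite; the right-angled Coxeter group `W G`
is the directed union of the standard subgroups `W (G.induce A)`, `A` a finite set of vertices.  If the
flag complex of `G` is a (locally finite) flag triangulation of a contractible manifold of dimension
`n - 1` then `W G` acts properly on the contractible noncompact `n`-manifold obtained by reflecting the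
product of the manifold with a half line in the dual cells; the quotients by torsion-free subgroups of
finite index are noncompact aspherical `n`-manifolds whose fundamental groups need not be finitely
generated.

For `i ≥ I` let `B i` be a set of vertices such that for every other vertex all the finite full
subcomplexes of its link are in the class `AQ (2 i - 3)` of the starting library.
-/

set_option autoImplicit false

namespace Pool.Agent.Results.MP_4f4d9f_gt.InfiniteComplexes

open Pool.Agent.W907.SG Pool.Agent.TH652.Above Pool.Agent.Y132.SI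
open Pool.Agent.Helper33.NS (cliqueNum)
open Pool.Agent.Helper33.NSF

/-- For `i ≥ I`, all finite full subcomplexes of the links of the vertices outside `B i` are in the class
`AQ (2 i - 3)`. -/
def LocallyGood {V : Type} (G : SimpleGraph V) (B : ℕ → Set V) (I : ℕ) : Prop :=
  ∀ i : ℕ, I ≤ i → ∀ v, v ∉ B i → ∀ A : Set V, A.Finite → A ⊆ G.neighborSet v →
    AQ (2 * i - 3) (G.induce A)

theorem good_induce {V : Type} {G : SimpleGraph V} {B : ℕ → Set V} {I : ℕ} (h : LocallyGood G B I)
    (A : Set V) (hA : A.Finite) :
    GoodOutside (G.induce A) (fun i => {x | x.1 ∈ B i}) I := by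
  intro i hi v hv
  have h1 := h i hi v.1 hv (A ∩ G.neighborSet v.1) (hA.subset Set.inter_subset_left)
    Set.inter_subset_right
  refine AQ.iso _ _ ⟨?_⟩ h1
  refine ⟨⟨fun x => ⟨⟨x.1, x.2.1⟩, x.2.2⟩, fun x => ⟨x.1.1, x.1.2, x.2⟩, fun _ => rfl, fun _ => rfl⟩, ?_⟩
  intro a b
  exact Iff.rfl

open Classical in
theorem cliqueNum_eq_zero {V : Type} [Fintype V] (G : SimpleGraph V) (B : Set V) (i : ℕ)
    (h : ∀ T : Finset V, G.IsClique (T : Set V) → (T : Set V) ⊆ B → T.card ≠ i) :
    cliqueNum G B i = 0 := by
  unfold cliqueNum
  refine Finset.card_eq_zero.2 (Finset.eq_empty_of_forall_notMem fun T hT => ?_)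
  obtain ⟨-, h1, h2, h3⟩ := Finset.mem_filter.1 hT
  exact h T h1 h2 h3

/-- Let `A` be a finite set of vertices. (1) If `i ≥ I` and `A ∩ B i` contains no clique with `i` elements
then the reduced `ℓ²`-homology of the Davis complex of `W (G.induce A)` vanishes in the degree `i`.  In
particular, if `B i` contains no clique with `i` elements then it vanishes for all finite sets `A`.
(2) In general the `i`-th Betti numbers, `i ≥ I`, of the subgroups `H` of finite index of
`W (G.induce A)` which avoid the conjugates of finitely many nontrivial elements are at most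
`(f_i(A) / 2^i + ε)` times the index, where `f_i(A)` is the number of the cliques with `i` elements
contained in `A ∩ B i`. -/
theorem result (V : Type) (G : SimpleGraph V) (I : ℕ) (hI : 2 ≤ I) (B : ℕ → Set V)
    (hB : LocallyGood G B I) (A : Set V) [Fintype ↥A] [LinearOrder ↥A] :
    (∀ i : ℕ, I ≤ i → (∀ T : Finset V, G.IsClique (T : Set V) → (T : Set V) ⊆ A →
      (T : Set V) ⊆ B i → T.card ≠ i) → L2Van (G.induce A) i) ∧
    ∀ ε : ℝ, 0 < ε → ∃ E : Finset (W (G.induce A)), (1 : W (G.induce A)) ∉ E ∧
      ∀ H : Subgroup (W (G.induce A)), H.FiniteIndex →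
        (∀ g ∈ E, ∀ x : W (G.induce A), x * g * x⁻¹ ∉ H) →
        ∀ i : ℕ, I ≤ i → (Module.finrank ℝ (HInv (G.induce A) H i) : ℝ) ≤
          ((cliqueNum (G.induce A) {x | x.1 ∈ B i} i : ℝ) / 2 ^ i + ε) * H.index := by
  have hG := good_induce hB A (Set.toFinite A)
  refine ⟨fun i hi h0 => l2van_bad _ _ I hI hG i hi ?_, fun ε hε => betti_le_bad _ _ I hI hG ε hε⟩
  refine cliqueNum_eq_zero _ _ _ fun T h1 h2 h3 => ?_
  refine h0 (T.map (Function.Embedding.subtype _)) ?_ ?_ ?_ (by rw [Finset.card_map]; exact h3)
  · intro a ha b hb hab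
    rw [Finset.mem_coe, Finset.mem_map] at ha hb
    obtain ⟨a', ha', rfl⟩ := ha
    obtain ⟨b', hb', rfl⟩ := hb
    exact h1 ha' hb' (fun e => hab (by rw [e]))
  · intro a ha
    rw [Finset.mem_coe, Finset.mem_map] at ha
    obtain ⟨a', _, rfl⟩ := ha
    exact a'.2
  · intro a ha
    rw [Finset.mem_coe, Finset.mem_map] at ha
    obtain ⟨a', ha', rfl⟩ := ha
    exact h2 ha'

end Pool.Agent.Results.MP_4f4d9f_gt.InfiniteComplexes
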